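import Pool.Agent.K1H70.FP.Stm

/-! The decomposition of a representation of a finite abelian group over an algebraically closed
field of characteristic zero, and the traces on the parts (project FP, pieces DEC and TRP). -/

set_option autoImplicit false
set_option linter.unusedSectionVars false

namespace Pool.Agent.K1H68.FP

open Finset Module Pool.Agent.K1H70.FP

section

variable {G E V : Type} [CommGroup G] [Fintype G] [Field E] [AddCommGroup V] [Module E V]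

/-- `card G` times the projection to the part of the character -/
noncomputable def Pr (ρ : G →* Module.End E V) (ψ : G →* Eˣ) : Module.End E V :=
  ∑ g : G, (((ψ g)⁻¹ : Eˣ) : E) • ρ g

theorem mem_part (ρ : G →* Module.End E V) (ψ : G →* Eˣ) (v : V) :
    v ∈ part ρ ψ ↔ ∀ g : G, ρ g v = (ψ g : E) • v := by
  unfold part
  rw [Submodule.mem_iInf]
  exact forall_congr' fun g => Module.End.mem_eigenspace_iff

theorem mul_Pr (ρ : G →* Module.End E V) (ψ : G →* Eˣ) (h : G) :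
    ρ h * Pr ρ ψ = (ψ h : E) • Pr ρ ψ := by
  unfold Pr
  rw [Finset.mul_sum, Finset.smul_sum]
  refine Fintype.sum_equiv (Equiv.mulLeft h) _ _ fun g => ?_
  rw [Equiv.coe_mulLeft, mul_smul_comm, ← map_mul, smul_smul, map_mul ψ, mul_inv, Units.val_mul,
    ← mul_assoc, Units.mul_inv, one_mul]

theorem Pr_mem (ρ : G →* Module.End E V) (ψ : G →* Eˣ) (v : V) : Pr ρ ψ v ∈ part ρ ψ := by
  rw [mem_part]
  intro g
  exact LinearMap.congr_fun (mul_Pr ρ ψ g) v

theorem Pr_apply (ρ : G →* Module.End E V) (ψ : G →* Eˣ) (v : V) (hv : v ∈ part ρ ψ) :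
    Pr ρ ψ v = (Fintype.card G : E) • v := by
  rw [mem_part] at hv
  unfold Pr
  rw [LinearMap.sum_apply]
  have h1 : ∀ g ∈ (univ : Finset G), ((((ψ g)⁻¹ : Eˣ) : E) • ρ g) v = v := by
    intro g _
    rw [LinearMap.smul_apply, hv, smul_smul, Units.inv_mul, one_smul]
  rw [Finset.sum_congr rfl h1, Finset.sum_const, Finset.card_univ, Nat.cast_smul_eq_nsmul]

end

theorem t_DEC : S_DEC := by
  intro G E V _ _ _ _ _ _ _ _ ρ
  classical
  have : NeZero ((Monoid.exponent G : ℕ) : E) :=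
    ⟨Nat.cast_ne_zero.2 Monoid.exponent_ne_zero_of_finite⟩
  have : HasEnoughRootsOfUnity E (Monoid.exponent G) := inferInstance
  have : Finite (G →* Eˣ) := inferInstance
  have : Fintype (G →* Eˣ) := Fintype.ofFinite _
  have hsum : ∑ ψ : G →* Eˣ, Pr ρ ψ = (Fintype.card (G →* Eˣ) : E) • (1 : Module.End E V) := by
    unfold Pr
    rw [Finset.sum_comm]
    have h1 : ∀ g : G, ∑ ψ : G →* Eˣ, (((ψ g)⁻¹ : Eˣ) : E) • ρ g =
        (∑ ψ : G →* Eˣ, (((ψ g)⁻¹ : Eˣ) : E)) • ρ g := fun g => (Finset.sum_smul).symm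
    simp only [h1]
    rw [Finset.sum_eq_single (1 : G)]
    · simp
    · intro g _ hg
      obtain ⟨φ, hφ⟩ := CommGroup.exists_apply_ne_one_of_hasEnoughRootsOfUnity G E hg
      have h2 : (((φ g)⁻¹ : Eˣ) : E) * ∑ ψ : G →* Eˣ, (((ψ g)⁻¹ : Eˣ) : E) =
          ∑ ψ : G →* Eˣ, (((ψ g)⁻¹ : Eˣ) : E) := by
        rw [Finset.mul_sum]
        refine Fintype.sum_equiv (Equiv.mulLeft φ) _ _ fun ψ => ?_
        rw [Equiv.coe_mulLeft, MonoidHom.mul_apply, mul_inv, Units.val_mul]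
      have h3 : ((((φ g)⁻¹ : Eˣ) : E) - 1) * ∑ ψ : G →* Eˣ, (((ψ g)⁻¹ : Eˣ) : E) = 0 := by
        rw [sub_mul, h2, one_mul, sub_self]
      rcases mul_eq_zero.1 h3 with h4 | h4
      · exfalso
        apply hφ
        have h5 : (((φ g)⁻¹ : Eˣ) : E) = ((1 : Eˣ) : E) := by
          rw [Units.val_one]; exact sub_eq_zero.1 h4
        exact inv_eq_one.1 (Units.ext h5)
      · rw [h4, zero_smul]
    · intro h
      exact absurd (Finset.mem_univ _) h
  have hn : (Fintype.card (G →* Eˣ) : E) ≠ 0 := Nat.cast_ne_zero.2 Fintype.card_ne_zero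
  rw [eq_top_iff]
  intro v _
  have h1 : (∑ ψ : G →* Eˣ, Pr ρ ψ) v = (Fintype.card (G →* Eˣ) : E) • v := by
    rw [hsum]; rfl
  have h2 : v = ((Fintype.card (G →* Eˣ) : E))⁻¹ • (∑ ψ : G →* Eˣ, Pr ρ ψ) v := by
    rw [h1, smul_smul, inv_mul_cancel₀ hn, one_smul]
  rw [h2, LinearMap.sum_apply]
  refine Submodule.smul_mem _ _ (Submodule.sum_mem _ fun ψ _ => ?_)
  exact Submodule.mem_iSup_of_mem ψ (Pr_mem ρ ψ v)

theorem t_TRP : S_TRP := by
  intro G E V _ _ _ _ _ _ _ _ ρ Φ hc ψ hΦ m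
  classical
  have hmem : ∀ v, (Φ ^ m * Pr ρ ψ) v ∈ part ρ ψ := by
    intro v
    rw [mem_part]
    intro g
    have h1 : ρ g * (Φ ^ m * Pr ρ ψ) = (ψ g : E) • (Φ ^ m * Pr ρ ψ) := by
      rw [← mul_assoc, ← ((hc g).pow_left m).eq, mul_assoc, mul_Pr, mul_smul_comm]
    exact LinearMap.congr_fun h1 v
  have h1 := LinearMap.trace_restrict_eq_of_forall_mem (part ρ ψ) (Φ ^ m * Pr ρ ψ) hmem
    (fun v _ => hmem v)
  have h2 : (Φ ^ m * Pr ρ ψ).restrict (fun v _ => hmem v) =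
      (Fintype.card G : E) • ((Φ.restrict hΦ) ^ m) := by
    ext v
    have h3 : ((Φ.restrict hΦ) ^ m) v = ⟨(Φ ^ m) v.1,
        Module.End.pow_apply_mem_of_forall_mem m hΦ v.1 v.2⟩ := by
      rw [Module.End.pow_restrict]
      rfl
    change (Φ ^ m) (Pr ρ ψ v.1) =
      (((Fintype.card G : E) • ((Φ.restrict hΦ) ^ m)) v : part ρ ψ).1
    rw [LinearMap.smul_apply, h3, Pr_apply ρ ψ v.1 v.2, map_smul]
    rfl
  rw [h2, map_smul, smul_eq_mul] at h1
  rw [h1]
  unfold Pr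
  rw [Finset.mul_sum, map_sum]
  refine Finset.sum_congr rfl fun g _ => ?_
  rw [mul_smul_comm, map_smul, smul_eq_mul]

end Pool.Agent.K1H68.FP

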